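import Pool.Agent.Helper91.Eig

set_option autoImplicit false

namespace Pool.Agent.Results.MP_b9b22b_co.SharpUpper

open Finset Pool.Agent.Helper91.Gen Pool.Agent.Helper91.Eig

open Classical in
/-- the `i`-th largest adjacency eigenvalue of a graph on `n` vertices (`1 ≤ i ≤ n`), the
eigenvalues being the roots of the characteristic polynomial listed with multiplicity in
decreasing order -/
noncomputable def lam {n : ℕ} (G : SimpleGraph (Fin n)) (i : ℕ) : ℝ :=
  ((G.adjMatrix ℝ).charpoly.roots.sort (· ≥ ·)).getD (i - 1) 0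

/-- the largest value of the `i`-th eigenvalue over all graphs on `n` vertices -/
noncomputable def bigM (i n : ℕ) : ℝ := sSup (Set.range fun G : SimpleGraph (Fin n) => lam G i)

open Classical in
theorem herm {n : ℕ} (G : SimpleGraph (Fin n)) : (G.adjMatrix ℝ).IsHermitian := by
  rw [Matrix.IsHermitian, Matrix.conjTranspose_eq_transpose_of_trivial]
  exact G.transpose_adjMatrix

open Classical in
theorem lam_eq {n : ℕ} (G : SimpleGraph (Fin n)) (k : ℕ) (hk : k < Fintype.card (Fin n)) :
    lam G (k + 1) = (herm G).eigenvalues₀ ⟨k, hk⟩ := by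
  have h := (herm G).sort_roots_charpoly_eq_eigenvalues₀
  have h2 : (G.adjMatrix ℝ).charpoly.roots.map RCLike.re = (G.adjMatrix ℝ).charpoly.roots := by
    conv_rhs => rw [← Multiset.map_id (G.adjMatrix ℝ).charpoly.roots]
    rfl
  rw [h2] at h
  unfold lam
  rw [h]
  simp only [Nat.add_sub_cancel]
  rw [List.getD_eq_getElem _ _ (by simpa using hk)]
  simp

open Classical in
/-- upper bound for the (k+1)-st eigenvalue, `k ≥ 2` -/
theorem upper {n : ℕ} (G : SimpleGraph (Fin n)) (k : ℕ) (hk2 : 2 ≤ k) (hk : k < n) (q : ℝ) (hq : 0 < q)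
    (hq2 : q ^ 2 * (k + 2) = 1) :
    lam G (k + 1) ≤ (1 + 2 * q) * (1 - q) / (q * (1 + q)) / (2 * k) * n - 1 := by
  have hk' : k < Fintype.card (Fin n) := by simpa using hk
  rw [lam_eq G k hk']
  obtain ⟨x, hx, hs, hQ⟩ := top_space (herm G) k hk'
  set μ := (herm G).eigenvalues₀ ⟨k, hk'⟩ with hμ
  have hkpos : (0 : ℝ) < k := by exact_mod_cast (by omega : 0 < k)
  have habs := abs_sum x hk2 hx q hq hq2
  set L := (1 + 2 * q) * (1 - q) / (q * (1 + q)) with hL
  simp only [Fintype.card_fin] at habs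
  let A := G.adjMatrix ℝ
  have hsumQ : (k : ℝ) * μ ≤ ∑ a, qf A (x a) := by
    calc (k : ℝ) * μ = ∑ a : Fin k, μ := by simp
      _ ≤ _ := Finset.sum_le_sum fun a _ => hQ a
  let P : Fin n → Fin n → ℝ := fun i j => ∑ a, x a i * x a j
  have hQP : ∑ a, qf A (x a) = ∑ i, ∑ j, A i j * P i j := by
    simp only [qf, P, Finset.mul_sum]
    rw [Finset.sum_comm]
    apply Finset.sum_congr rfl; intro i _
    rw [Finset.sum_comm]
  have hP1 : ∑ i, ∑ j, P i j = 0 := by
    have : ∀ i, ∑ j, P i j = ∑ a, x a i * ∑ j, x a j := by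
      intro i
      simp only [P, Finset.mul_sum]
      rw [Finset.sum_comm]
    simp only [this, hs]
    simp
  have hPtr : ∑ i, P i i = k := by
    simp only [P]
    rw [Finset.sum_comm]
    simp [hx]
  -- the complement form
  have hcomp : ∑ i, ∑ j, (1 - (if i = j then (1 : ℝ) else 0) - A i j) * P i j
      = 0 - k - ∑ i, ∑ j, A i j * P i j := by
    have hexp : ∀ i j, (1 - (if i = j then (1 : ℝ) else 0) - A i j) * P i j
        = P i j - (if i = j then P i j else 0) - A i j * P i j := by
      intro i j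
      by_cases h : i = j
      · simp only [h, if_true]; ring
      · simp only [h, if_false]; ring
    simp only [hexp, Finset.sum_sub_distrib, hP1]
    simp only [Finset.sum_ite_eq, Finset.mem_univ, if_true, hPtr]
  have hlow : ∀ i j, -((|P i j| - P i j) / 2) ≤ (1 - (if i = j then (1 : ℝ) else 0) - A i j) * P i j := by
    intro i j
    have h1 := le_abs_self (P i j)
    have h2 := neg_abs_le (P i j)
    have hA01 : A i j = if G.Adj i j then 1 else 0 := by
      simp only [A, SimpleGraph.adjMatrix_apply]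
    rw [hA01]
    by_cases hij : i = j
    · subst hij
      simp
      linarith
    · by_cases hadj : G.Adj i j
      · simp [hij, hadj]
        linarith
      · simp only [hij, hadj, if_false, sub_zero, one_mul]
        linarith
  have hmain : -(L * n / 2) ≤ 0 - k - k * μ := by
    calc -(L * n / 2) ≤ -((∑ i, ∑ j, |P i j|) / 2) := by
          have : ∑ i, ∑ j, |P i j| ≤ L * n := habs
          linarith
      _ = ∑ i, ∑ j, -((|P i j| - P i j) / 2) := by
          simp only [Finset.sum_neg_distrib, ← Finset.sum_div, Finset.sum_sub_distrib, hP1]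
          ring
      _ ≤ _ := Finset.sum_le_sum fun i _ => Finset.sum_le_sum fun j _ => hlow i j
      _ = _ := hcomp
      _ ≤ _ := by rw [← hQP]; linarith
  have h1 : (k : ℝ) * (μ + 1) ≤ L * n / 2 := by linarith
  have h2 : μ + 1 ≤ L / (2 * k) * n := by
    rw [div_mul_eq_mul_div, le_div_iff₀ (by positivity)]
    linarith
  linarith

/-- the constant in closed form -/
theorem upper' {n : ℕ} (G : SimpleGraph (Fin n)) (i : ℕ) (hi : 3 ≤ i) (hin : i ≤ n) :
    lam G i ≤ (2 + (i - 2) * Real.sqrt (i + 1)) / (2 * i * (i - 1)) * n - 1 := by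
  obtain ⟨k, rfl⟩ : ∃ k, i = k + 1 := ⟨i - 1, by omega⟩
  have hk2 : 2 ≤ k := by omega
  have hk2' : (2 : ℝ) ≤ k := by exact_mod_cast hk2
  set s : ℝ := Real.sqrt ((k : ℝ) + 2) with hs
  have hs0 : 0 < s := Real.sqrt_pos.mpr (by positivity)
  have hs2 : s ^ 2 = (k : ℝ) + 2 := Real.sq_sqrt (by positivity)
  have hs1 : 1 < s := by nlinarith
  have h := upper G k hk2 (by omega) (1 / s) (by positivity) (by rw [← hs2]; field_simp)
  have hcast : (((k + 1 : ℕ) : ℝ) + 1) = (k : ℝ) + 2 := by push_cast; ring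
  rw [hcast, ← hs]
  refine h.trans (le_of_eq ?_)
  congr 2
  push_cast
  have hkne : (k : ℝ) ≠ 0 := by positivity
  have hk1 : (k : ℝ) + 1 ≠ 0 := by positivity
  have hsk : (k : ℝ) = s ^ 2 - 2 := by linarith
  have hs1ne : s + 1 ≠ 0 := by positivity
  have hs1' : s ^ 2 - 1 ≠ 0 := by nlinarith
  have hs2' : s ^ 2 - 2 ≠ 0 := by rw [← hsk]; exact hkne
  rw [hsk]
  have e1 : s ^ 2 - 2 + 1 = s ^ 2 - 1 := by ring
  have e2 : s ^ 2 - 2 + 1 - 1 = s ^ 2 - 2 := by ring
  have e3 : s ^ 2 - 2 + 1 - 2 = s ^ 2 - 3 := by ring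
  rw [e2, e3, e1]
  have hsne : s ≠ 0 := hs0.ne'
  have e4 : (1 + 2 * (1 / s)) * (1 - 1 / s) / (1 / s * (1 + 1 / s)) = (s + 2) * (s - 1) / (s + 1) := by
    field_simp
  rw [e4]
  rw [div_div, div_eq_div_iff (by positivity) (by
    apply mul_ne_zero (mul_ne_zero (by norm_num) hs1') hs2')]
  ring

/-! ### blow-ups attaining the bound -/

/-- the clique blow-up: vertices `i` and `j` of `Fin (N * t)` lie in the blocks `i.divNat` and
`j.divNat` of size `t`; distinct vertices are adjacent when their blocks are related -/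
def blow (N t : ℕ) (R : Fin N → Fin N → Bool) (hR : ∀ u v, R u v = R v u) :
    SimpleGraph (Fin (N * t)) where
  Adj i j := i ≠ j ∧ R i.divNat j.divNat = true
  symm := ⟨fun i j h => ⟨h.1.symm, by rw [hR]; exact h.2⟩⟩
  loopless := ⟨fun i h => h.1 rfl⟩

theorem sum_blow (N t : ℕ) (f : Fin N → ℝ) :
    ∑ i : Fin (N * t), f i.divNat = t * ∑ u, f u := by
  rw [← finProdFinEquiv.sum_comp, Fintype.sum_prod_type]
  have : ∀ (u : Fin N) (b : Fin t), (finProdFinEquiv (u, b)).divNat = u := by
    intro u b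
    have h := finProdFinEquiv.symm_apply_apply (u, b)
    exact congrArg Prod.fst h
  simp only [this]
  simp [Finset.mul_sum]

open Classical in
/-- lower bound for the (k+1)-st eigenvalue of a blow-up -/
theorem blow_low (N t k : ℕ) (ht : 1 ≤ t) (R : Fin N → Fin N → Bool) (hR : ∀ u v, R u v = R v u)
    (hrefl : ∀ u, R u u = true) (hk : k < N * t) (c : ℝ)
    (w : Fin (k + 1) → Fin N → ℝ)
    (hw : ∀ γ : Fin (k + 1) → ℝ, (∀ u, ∑ a, γ a * w a u = 0) → γ = 0)
    (hq : ∀ γ : Fin (k + 1) → ℝ, c * ∑ u, (∑ a, γ a * w a u) ^ 2 ≤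
      ∑ u, (∑ a, γ a * w a u) * ∑ v, (if R u v then (∑ a, γ a * w a v) else 0)) :
    c * t - 1 ≤ lam (blow N t R hR) (k + 1) := by
  have hk' : k < Fintype.card (Fin (N * t)) := by simpa using hk
  rw [lam_eq _ k hk']
  have htpos : (0 : ℝ) < t := by exact_mod_cast ht
  apply low_bound (herm (blow N t R hR)) k hk' (c * t - 1) (fun a i => w a i.divNat)
  · intro γ hγ
    apply hw γ
    intro u
    have := hγ (finProdFinEquiv (u, (⟨0, ht⟩ : Fin t)))
    have h2 : (finProdFinEquiv (u, (⟨0, ht⟩ : Fin t))).divNat = u :=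
      congrArg Prod.fst (finProdFinEquiv.symm_apply_apply (u, (⟨0, ht⟩ : Fin t)))
    rw [h2] at this
    exact this
  · intro γ
    set g : Fin N → ℝ := fun u => ∑ a, γ a * w a u with hg
    have e1 : ∑ i : Fin (N * t), (∑ a, γ a * w a i.divNat) ^ 2 = t * ∑ u, g u ^ 2 :=
      sum_blow N t (fun u => g u ^ 2)
    have e2 : qf ((blow N t R hR).adjMatrix ℝ) (fun i => ∑ a, γ a * w a i.divNat)
        = t * (t * ∑ u, g u * ∑ v, (if R u v then g v else 0)) - t * ∑ u, g u ^ 2 := by
      rw [qf_eq]
      have h1 : ∀ i : Fin (N * t), ∑ j, ((blow N t R hR).adjMatrix ℝ) i j * g j.divNat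
          = t * (∑ v, (if R i.divNat v then g v else 0)) - g i.divNat := by
        intro i
        have h2 : ∀ j : Fin (N * t), ((blow N t R hR).adjMatrix ℝ) i j * g j.divNat
            = (if R i.divNat j.divNat then g j.divNat else 0) - (if i = j then g j.divNat else 0) := by
          intro j
          rw [SimpleGraph.adjMatrix_apply]
          by_cases hij : i = j
          · subst hij
            simp [hrefl]
          · by_cases hr : R i.divNat j.divNat = true
            · have : (blow N t R hR).Adj i j := ⟨hij, hr⟩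
              simp [this, hr, hij]
            · have : ¬ (blow N t R hR).Adj i j := fun h => hr h.2
              simp [this, hr, hij]
        simp only [h2, Finset.sum_sub_distrib]
        rw [sum_blow N t (fun v => if R i.divNat v then g v else 0)]
        simp
      have h3 : ∀ i : Fin (N * t), (∑ a, γ a * w a i.divNat) * ∑ j, ((blow N t R hR).adjMatrix ℝ) i j *
          (∑ a, γ a * w a j.divNat) = t * (g i.divNat * (∑ v, (if R i.divNat v then g v else 0)))
            - g i.divNat ^ 2 := by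
        intro i
        have := h1 i
        simp only [hg] at this ⊢
        rw [this]; ring
      simp only [h3, Finset.sum_sub_distrib, ← Finset.mul_sum]
      rw [sum_blow N t (fun u => g u * ∑ v, (if R u v then g v else 0)),
        sum_blow N t (fun u => g u ^ 2)]
    rw [e1, e2]
    have h4 := mul_le_mul_of_nonneg_left (hq γ) (mul_pos htpos htpos).le
    nlinarith [h4]

theorem bigM_eq {i n : ℕ} {m : ℝ} (h1 : ∀ G : SimpleGraph (Fin n), lam G i ≤ m)
    (h2 : ∃ G : SimpleGraph (Fin n), m ≤ lam G i) : bigM i n = m := by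
  obtain ⟨G, hG⟩ := h2
  apply IsGreatest.csSup_eq
  refine ⟨⟨G, le_antisymm (h1 G) hG⟩, ?_⟩
  rintro x ⟨H, rfl⟩
  exact h1 H

/-! the three extremal base graphs (loops included in the relation) -/

/-- three disjoint cliques -/
def R3 (u v : Fin 3) : Bool := u = v

/-- icosahedron: vertex `4s+2a+b` is the cyclic shift by `s` of `(0, ±1, ±φ)`, two vertices are
related when their inner product is positive -/
def R12 (u v : Fin 12) : Bool :=
  let s := u.val / 4
  let s' := v.val / 4
  let a := u.val / 2 % 2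
  let a' := v.val / 2 % 2
  let b := u.val % 2
  let b' := v.val % 2
  if s = s' then b = b' else if s' = (s + 1) % 3 then b = a' else b' = a

/-- rational part of the coordinates of the icosahedron vertices -/
def p12 (c : Fin 3) (u : Fin 12) : ℤ :=
  let s := u.val / 4
  let a := u.val / 2 % 2
  if c.val = (s + 1) % 3 then (if a = 1 then 1 else -1) else 0

/-- coefficient of `φ` in the coordinates of the icosahedron vertices -/
def q12 (c : Fin 3) (u : Fin 12) : ℤ :=
  let s := u.val / 4
  let b := u.val % 2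
  if c.val = (s + 2) % 3 then (if b = 1 then 1 else -1) else 0

/-- the 28 pairs from eight points -/
def pairs28 : List (ℕ × ℕ) :=
  (List.range 8).flatMap fun a => ((List.range 8).filter fun b => a < b).map fun b => (a, b)

def in28 (u : Fin 28) (c : Fin 8) : Bool :=
  (pairs28.getD u.val (0, 0)).1 = c.val || (pairs28.getD u.val (0, 0)).2 = c.val

/-- two pairs are related when they share a point -/
def R28 (u v : Fin 28) : Bool := (List.finRange 8).any fun c => in28 u c && in28 v c

theorem R3_symm : ∀ u v, R3 u v = R3 v u := by decide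
theorem R3_refl : ∀ u, R3 u u = true := by decide
theorem R12_symm : ∀ u v, R12 u v = R12 v u := by decide +kernel
theorem R12_refl : ∀ u, R12 u u = true := by decide +kernel
theorem R28_symm : ∀ u v, R28 u v = R28 v u := by decide +kernel
theorem R28_refl : ∀ u, R28 u u = true := by decide +kernel

theorem p12_R : ∀ c u, ∑ v, (if R12 u v then p12 c v else 0) = 2 * q12 c u := by decide +kernel
theorem q12_R : ∀ c u, ∑ v, (if R12 u v then q12 c v else 0) = 2 * p12 c u + 2 * q12 c u := by
  decide +kernel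
theorem one12_R : ∀ u, ∑ v, (if R12 u v then (1 : ℤ) else 0) = 6 := by decide +kernel
theorem p12_sum : ∀ c, ∑ u, p12 c u = 0 := by decide +kernel
theorem q12_sum : ∀ c, ∑ u, q12 c u = 0 := by decide +kernel

def f28 (c : Fin 8) (u : Fin 28) : ℤ := if in28 u c then 1 else 0
theorem f28_R : ∀ c u, ∑ v, (if R28 u v then f28 c v else 0) = 5 * f28 c u + 2 := by decide +kernel
theorem f28_sum : ∀ c, ∑ u, f28 c u = 7 := by decide +kernel

theorem ex3 (t : ℕ) (ht : 1 ≤ t) : (1 : ℝ) * t - 1 ≤ lam (blow 3 t R3 R3_symm) 3 := by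
  apply blow_low 3 t 2 ht R3 R3_symm R3_refl (by omega) 1 (fun a u => if a = u then 1 else 0)
  · intro γ hγ
    funext u
    have := hγ u
    simpa using this
  · intro γ
    apply le_of_eq
    rw [one_mul]
    apply Finset.sum_congr rfl; intro u _
    simp [R3, sq]

/-- golden ratio -/
noncomputable def ph : ℝ := (1 + Real.sqrt 5) / 2

theorem ph_sq : ph ^ 2 = ph + 1 := by
  have : Real.sqrt 5 ^ 2 = 5 := Real.sq_sqrt (by norm_num)
  unfold ph; nlinarith

theorem ph_pos : 0 < ph := by unfold ph; positivity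

theorem ph_lt : ph < 3 := by
  have h : Real.sqrt 5 < 3 := by
    rw [Real.sqrt_lt' (by norm_num)]; norm_num
  unfold ph; linarith

/-- coordinate functions of the icosahedron -/
noncomputable def f12 (c : Fin 3) (u : Fin 12) : ℝ := (p12 c u : ℝ) + (q12 c u : ℝ) * ph

theorem f12_R (c : Fin 3) (u : Fin 12) :
    ∑ v, (if R12 u v then f12 c v else 0) = 2 * ph * f12 c u := by
  have h1 : ∑ v, (if R12 u v then f12 c v else 0)
      = ((∑ v, (if R12 u v then p12 c v else 0) : ℤ) : ℝ)
        + ((∑ v, (if R12 u v then q12 c v else 0) : ℤ) : ℝ) * ph := by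
    push_cast
    rw [Finset.sum_mul, ← Finset.sum_add_distrib]
    apply Finset.sum_congr rfl; intro v _
    by_cases h : R12 u v = true <;> simp [h, f12]
  rw [h1, p12_R, q12_R]
  push_cast
  unfold f12
  have := ph_sq
  linear_combination (-2 * (q12 c u : ℝ)) * this

theorem f12_sum (c : Fin 3) : ∑ u, f12 c u = 0 := by
  have h1 : ∑ u, f12 c u = ((∑ u, p12 c u : ℤ) : ℝ) + ((∑ u, q12 c u : ℤ) : ℝ) * ph := by
    push_cast
    rw [Finset.sum_mul, ← Finset.sum_add_distrib]
    rfl
  rw [h1, p12_sum, q12_sum]; simp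

theorem ex12 (t : ℕ) (ht : 1 ≤ t) : (2 * ph) * t - 1 ≤ lam (blow 12 t R12 R12_symm) 4 := by
  apply blow_low 12 t 3 ht R12 R12_symm R12_refl (by omega) (2 * ph)
    (Fin.cons (fun _ => 1) (fun c u => f12 c u))
  · intro γ hγ
    simp only [Fin.sum_univ_succ (n := 3), Fin.cons_zero, Fin.cons_succ, mul_one] at hγ
    have h0 : γ 0 = 0 := by
      have h1 : ∑ u : Fin 12, (γ 0 + ∑ c : Fin 3, γ c.succ * f12 c u) = 0 := by
        apply Finset.sum_eq_zero; intro u _; exact hγ u
      rw [Finset.sum_add_distrib, Finset.sum_comm] at h1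
      simp only [← Finset.mul_sum, f12_sum] at h1
      simp at h1
      exact h1
    have e3 := hγ 3
    have e2 := hγ 2
    have e7 := hγ 7
    have e6 := hγ 6
    have e11 := hγ 11
    have e10 := hγ 10
    have v3 : p12 0 3 = 0 ∧ q12 0 3 = 0 ∧ p12 1 3 = 1 ∧ q12 1 3 = 0 ∧ p12 2 3 = 0 ∧ q12 2 3 = 1 := by
      decide
    have v2 : p12 0 2 = 0 ∧ q12 0 2 = 0 ∧ p12 1 2 = 1 ∧ q12 1 2 = 0 ∧ p12 2 2 = 0 ∧ q12 2 2 = -1 := by
      decide
    have v7 : p12 0 7 = 0 ∧ q12 0 7 = 1 ∧ p12 1 7 = 0 ∧ q12 1 7 = 0 ∧ p12 2 7 = 1 ∧ q12 2 7 = 0 := by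
      decide
    have v6 : p12 0 6 = 0 ∧ q12 0 6 = -1 ∧ p12 1 6 = 0 ∧ q12 1 6 = 0 ∧ p12 2 6 = 1 ∧ q12 2 6 = 0 := by
      decide
    have v11 : p12 0 11 = 1 ∧ q12 0 11 = 0 ∧ p12 1 11 = 0 ∧ q12 1 11 = 1 ∧ p12 2 11 = 0 ∧ q12 2 11 = 0 := by
      decide
    have v10 : p12 0 10 = 1 ∧ q12 0 10 = 0 ∧ p12 1 10 = 0 ∧ q12 1 10 = -1 ∧ p12 2 10 = 0 ∧ q12 2 10 = 0 := by
      decide
    simp only [Fin.sum_univ_three, f12, v3, v2, v7, v6, v11, v10, h0] at e3 e2 e7 e6 e11 e10
    push_cast at e3 e2 e7 e6 e11 e10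
    funext j
    refine Fin.cases h0 (fun c => ?_) j
    fin_cases c
    · change γ 1 = 0
      linarith
    · change γ 2 = 0
      linarith
    · change γ 3 = 0
      linarith
  · intro γ
    simp only [Fin.sum_univ_succ (n := 3), Fin.cons_zero, Fin.cons_succ, mul_one]
    set h : Fin 12 → ℝ := fun u => ∑ c : Fin 3, γ c.succ * f12 c u with hh
    have hsum : ∑ u, h u = 0 := by
      simp only [hh]
      rw [Finset.sum_comm]
      simp only [← Finset.mul_sum, f12_sum]
      simp
    have hR : ∀ u, ∑ v, (if R12 u v then (γ 0 + h v) else 0) = 6 * γ 0 + 2 * ph * h u := by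
      intro u
      have h1 : ∀ v, (if R12 u v then (γ 0 + h v) else 0)
          = γ 0 * (if R12 u v then (1 : ℝ) else 0) + ∑ c : Fin 3, γ c.succ * (if R12 u v then f12 c v else 0) := by
        intro v
        by_cases hr : R12 u v = true <;> simp [hr, hh]
      simp only [h1, Finset.sum_add_distrib, ← Finset.mul_sum]
      rw [Finset.sum_comm]
      simp only [← Finset.mul_sum, f12_R]
      have h2 : ∑ v, (if R12 u v then (1 : ℝ) else 0) = 6 := by
        have := one12_R u
        exact_mod_cast this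
      rw [h2]
      simp only [hh, Finset.mul_sum]
      have : ∀ c : Fin 3, γ c.succ * (2 * ph * f12 c u) = 2 * ph * (γ c.succ * f12 c u) := by
        intro c; ring
      simp only [this]
      ring
    have hR' : ∀ u, (γ 0 + h u) * ∑ v, (if R12 u v then (γ 0 + h v) else 0)
        = 6 * γ 0 ^ 2 + (6 + 2 * ph) * γ 0 * h u + 2 * ph * h u ^ 2 := by
      intro u; rw [hR]; ring
    have hS : ∀ u, (γ 0 + h u) ^ 2 = γ 0 ^ 2 + 2 * γ 0 * h u + h u ^ 2 := by intro u; ring
    change 2 * ph * ∑ u, (γ 0 + h u) ^ 2 ≤ ∑ u, (γ 0 + h u) * ∑ v, (if R12 u v then (γ 0 + h v) else 0)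
    simp only [hR', hS, Finset.sum_add_distrib, ← Finset.mul_sum, hsum]
    simp only [Finset.sum_const, Finset.card_univ, Fintype.card_fin, nsmul_eq_mul]
    have := ph_lt
    push_cast
    nlinarith [sq_nonneg (γ 0), mul_nonneg (sub_nonneg.mpr this.le) (sq_nonneg (γ 0))]

theorem f28_dot : ∀ c d, ∑ u, f28 c u * f28 d u = if c = d then 7 else 1 := by decide +kernel

theorem ex28 (t : ℕ) (ht : 1 ≤ t) : (5 : ℝ) * t - 1 ≤ lam (blow 28 t R28 R28_symm) 8 := by
  apply blow_low 28 t 7 ht R28 R28_symm R28_refl (by omega) 5 (fun c u => (f28 c u : ℝ))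
  · intro γ hγ
    have hdot : ∀ c d : Fin 8, ∑ u, (f28 c u : ℝ) * (f28 d u : ℝ) = if c = d then 7 else 1 := by
      intro c d
      have := f28_dot c d
      exact_mod_cast this
    have h1 : ∀ c : Fin 8, 6 * γ c + ∑ d, γ d = 0 := by
      intro c
      have e : ∑ u, (f28 c u : ℝ) * ∑ d, γ d * (f28 d u : ℝ) = 0 := by
        apply Finset.sum_eq_zero; intro u _
        rw [hγ u, mul_zero]
      have e2 : ∑ u, (f28 c u : ℝ) * ∑ d, γ d * (f28 d u : ℝ) = ∑ d, γ d * (if c = d then 7 else 1) := by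
        simp only [Finset.mul_sum]
        rw [Finset.sum_comm]
        apply Finset.sum_congr rfl; intro d _
        rw [← hdot, Finset.mul_sum]
        apply Finset.sum_congr rfl; intro u _; ring
      rw [e2] at e
      have e3 : ∀ d, γ d * (if c = d then (7 : ℝ) else 1) = γ d + (if c = d then 6 * γ d else 0) := by
        intro d
        by_cases h : c = d <;> simp [h]; ring
      simp only [e3, Finset.sum_add_distrib] at e
      simp only [Finset.sum_ite_eq, Finset.mem_univ, if_true] at e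
      linarith
    have h2 : ∑ d, γ d = 0 := by
      have : ∑ c : Fin 8, (6 * γ c + ∑ d, γ d) = 0 := Finset.sum_eq_zero fun c _ => h1 c
      rw [Finset.sum_add_distrib, ← Finset.mul_sum] at this
      simp at this
      linarith
    funext c
    have := h1 c
    rw [h2] at this
    simp at this
    simpa using this
  · intro γ
    set g : Fin 28 → ℝ := fun u => ∑ c, γ c * (f28 c u : ℝ) with hg
    have hgs : ∑ u, g u = 7 * ∑ c, γ c := by
      simp only [hg]
      rw [Finset.sum_comm, Finset.mul_sum]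
      apply Finset.sum_congr rfl; intro c _
      rw [← Finset.mul_sum]
      have : ∑ u, (f28 c u : ℝ) = 7 := by exact_mod_cast f28_sum c
      rw [this]; ring
    have hR : ∀ u, ∑ v, (if R28 u v then g v else 0) = 5 * g u + 2 * ∑ c, γ c := by
      intro u
      have h1 : ∀ v, (if R28 u v then g v else 0)
          = ∑ c, γ c * (if R28 u v then (f28 c v : ℝ) else 0) := by
        intro v
        by_cases hr : R28 u v = true <;> simp [hr, hg]
      simp only [h1]
      rw [Finset.sum_comm]
      simp only [← Finset.mul_sum]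
      have h2 : ∀ c, ∑ v, (if R28 u v then (f28 c v : ℝ) else 0) = 5 * f28 c u + 2 := by
        intro c
        have := f28_R c u
        exact_mod_cast this
      simp only [h2]
      simp only [hg, Finset.mul_sum, ← Finset.sum_add_distrib]
      apply Finset.sum_congr rfl; intro c _; ring
    have hR' : ∀ u, g u * ∑ v, (if R28 u v then g v else 0) = 5 * g u ^ 2 + (2 * ∑ c, γ c) * g u := by
      intro u; rw [hR]; ring
    change 5 * ∑ u, g u ^ 2 ≤ ∑ u, g u * ∑ v, (if R28 u v then g v else 0)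
    simp only [hR', Finset.sum_add_distrib, ← Finset.mul_sum, hgs]
    nlinarith [sq_nonneg (∑ c, γ c)]

/-- For every `i ≥ 3`, every graph on `n ≥ i` vertices satisfies
`λ_i ≤ (2 + (i-2) √(i+1)) / (2 i (i-1)) · n - 1`; and equality is attained, so that `M_i(n)` is
determined exactly, for `i = 3` and `3 ∣ n`, for `i = 4` and `12 ∣ n`, for `i = 8` and `28 ∣ n`. -/
theorem result :
    (∀ i n : ℕ, 3 ≤ i → i ≤ n → ∀ G : SimpleGraph (Fin n),
      lam G i ≤ (2 + ((i : ℝ) - 2) * Real.sqrt ((i : ℝ) + 1)) / (2 * (i : ℝ) * ((i : ℝ) - 1)) * n - 1) ∧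
    (∀ t : ℕ, 1 ≤ t →
      bigM 3 (3 * t) = t - 1 ∧
      bigM 4 (12 * t) = (1 + Real.sqrt 5) * t - 1 ∧
      bigM 8 (28 * t) = 5 * t - 1) := by
  refine ⟨fun i n hi hin G => upper' G i hi hin, fun t ht => ⟨?_, ?_, ?_⟩⟩
  · apply bigM_eq
    · intro G
      have h := upper' G 3 (by norm_num) (by omega)
      have hs : Real.sqrt (((3 : ℕ) : ℝ) + 1) = 2 := by
        rw [show (((3 : ℕ) : ℝ) + 1) = 2 ^ 2 by norm_num]
        exact Real.sqrt_sq (by norm_num)
      rw [hs] at h
      push_cast at h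
      refine h.trans (le_of_eq ?_)
      ring
    · exact ⟨_, by simpa using ex3 t ht⟩
  · apply bigM_eq
    · intro G
      have h := upper' G 4 (by norm_num) (by omega)
      have hs : (((4 : ℕ) : ℝ) + 1) = 5 := by norm_num
      rw [hs] at h
      push_cast at h
      refine h.trans (le_of_eq ?_)
      ring
    · refine ⟨_, le_trans (le_of_eq ?_) (ex12 t ht)⟩
      unfold ph; ring
  · apply bigM_eq
    · intro G
      have h := upper' G 8 (by norm_num) (by omega)
      have hs : Real.sqrt (((8 : ℕ) : ℝ) + 1) = 3 := by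
        rw [show (((8 : ℕ) : ℝ) + 1) = 3 ^ 2 by norm_num]
        exact Real.sqrt_sq (by norm_num)
      rw [hs] at h
      push_cast at h
      refine h.trans (le_of_eq ?_)
      ring
    · exact ⟨_, ex28 t ht⟩

end Pool.Agent.Results.MP_b9b22b_co.SharpUpper
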